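import Pool.Agent.H24R3.GapsShort3

/-!
# Mass of the nearest-neighbour spacing distribution of the zeta zeros in explicit windows,
# in every short interval

Assume the Riemann hypothesis.  For `0 < h ≤ 1` put `c h = R0 / h + h (cMT⁻¹ - R0)` and, for
`0 ≤ a ≤ 1 / (3 h)`, `p h a = 1 - (c h - 1) / K(h a)²`, with the Montgomery-Taylor constant `cMT`
and kernel `K`.  For all large `T` and all `T ^ h ≤ H ≤ T`, among the normalised gaps `δ n` of the
zeros with ordinate in `(T, T + H]` a proportion of at least `p h a - 1 / b - ε` lies in `(a, b]`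
and a proportion of at least `p h a - ε` is larger than `a`.
-/

open Filter Topology

namespace Pool.Agent.Results.MP_21f43f_nt.GapWindows

/-- multiplicity of `s` as a zero of the Riemann zeta function (order of vanishing at `s`) -/
noncomputable def zmult (s : ℂ) : ℕ := analyticOrderNatAt riemannZeta s

/-- the number of nontrivial zeros of `ζ` with ordinate in `(0, t]`, with multiplicity -/
noncomputable def NZ (t : ℝ) : ℕ :=
  ∑ᶠ s ∈ {s : ℂ | riemannZeta s = 0 ∧ 0 < s.re ∧ s.re < 1 ∧ 0 < s.im ∧ s.im ≤ t}, zmult s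

/-- for `n ≥ 1`: the `n`-th positive ordinate `γ n` of a nontrivial zero of `ζ`, the ordinates being
listed in nondecreasing order and repeated according to multiplicity -/
noncomputable def γ (n : ℕ) : ℝ := sInf {t : ℝ | n ≤ NZ t}

/-- the normalised gaps `δ_n = (γ_{n+1} log γ_{n+1} - γ_n log γ_n) / 2π` -/
noncomputable def δ (n : ℕ) : ℝ :=
  (γ (n + 1) * Real.log (γ (n + 1)) - γ n * Real.log (γ n)) / (2 * Real.pi)

/-- the number of the indices `n` with `T < γ_n ≤ T + H` -/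
noncomputable def Z (T H : ℝ) : ℕ := {n : ℕ | 1 ≤ n ∧ T < γ n ∧ γ n ≤ T + H}.ncard

/-- the number of these indices with `a < δ_n ≤ b` -/
noncomputable def G (T H a b : ℝ) : ℕ :=
  {n : ℕ | 1 ≤ n ∧ T < γ n ∧ γ n ≤ T + H ∧ a < δ n ∧ δ n ≤ b}.ncard

/-- the number of these indices with `a < δ_n` -/
noncomputable def GT (T H a : ℝ) : ℕ :=
  {n : ℕ | 1 ≤ n ∧ T < γ n ∧ γ n ≤ T + H ∧ a < δ n}.ncard

/-- the Montgomery-Taylor kernel -/
noncomputable def K (r : ℝ) : ℝ :=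
  (∫ t in (-1 / 2 : ℝ)..(1 / 2), Real.cos (Real.sqrt 2 * t) * Real.cos (2 * Real.pi * r * t)) /
    (Real.sqrt 2 * Real.sin (1 / Real.sqrt 2))

/-- the Montgomery-Taylor constant -/
noncomputable def cMT : ℝ :=
  Real.sqrt 2 * Real.tan (1 / Real.sqrt 2) / (1 + Real.tan (1 / Real.sqrt 2) / Real.sqrt 2)

/-- the mean square of the Montgomery-Taylor window, `1.0062...` -/
noncomputable def R0 : ℝ :=
  (1 + Real.sin (Real.sqrt 2) / Real.sqrt 2) / (4 * Real.sin (1 / Real.sqrt 2) ^ 2)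

/-- the constant for intervals of length `T^h`; `c 1 = cMT⁻¹ = 1.3274...` -/
noncomputable def c (h : ℝ) : ℝ := R0 / h + h * (cMT⁻¹ - R0)

/-- the lower bound for the proportion of the gaps larger than `a` -/
noncomputable def p (h a : ℝ) : ℝ := 1 - (c h - 1) / K (h * a) ^ 2

/-- the index sets are finite -/
theorem finite_idx (T H : ℝ) : {n : ℕ | 1 ≤ n ∧ T < γ n ∧ γ n ≤ T + H}.Finite :=
  Pool.Agent.H24R3.GapsShort.idx_finite T H

theorem K_eq (r : ℝ) : K r = H344.KK r := by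
  have h := H370.GramAux.kap_re_mul (2 * Real.pi * r)
  have hd := H370.GramAux.den_pos.ne'
  unfold K H344.KK
  rw [← h, mul_div_cancel_left₀ _ hd]

theorem c_eq {h : ℝ} (hh : 0 < h) : c h = H295Iso.c0 h := by
  have h1 : cMT⁻¹ = H370.cMTinv := H370.cMTinv_eq
  have h2 := H228SI.constS 1 one_pos le_rfl
  have h4 : Real.sqrt 2 / 2 = 1 / Real.sqrt 2 := by
    rw [div_eq_div_iff (by norm_num) (by positivity), Real.mul_self_sqrt (by norm_num), one_mul]
  have h3 : H295SI.RS (Real.sqrt 2) 0 = R0 := by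
    unfold H295SI.RS R0
    have hs : Real.sqrt 2 ^ 2 = 2 := Real.sq_sqrt (by norm_num)
    rw [if_pos (by norm_num), hs, h4]
    simp only [abs_zero, sub_zero, mul_zero, Real.cos_zero, mul_one]
    ring
  have h5 : H295SI.cc 1 = H370.cMTinv := by
    unfold H295SI.cc H370.cMTinv
    rfl
  rw [mul_one, h5] at h2
  unfold c H295Iso.c0 H295SI.cR
  unfold H295SI.cR at h2
  rw [h3] at h2 ⊢
  rw [h1, ← h2]
  ring

theorem p_eq {h : ℝ} (hh : 0 < h) (a : ℝ) : p h a = Pool.Agent.H24R3.PairsShort.pd h a := by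
  unfold p Pool.Agent.H24R3.PairsShort.pd
  rw [c_eq hh, K_eq]

theorem Z_eq (T H : ℝ) : Pool.Agent.H24R3.GapsShort.ZC T H = Z T H := rfl

theorem G_eq (T H a b : ℝ) : Pool.Agent.H24R3.GapsShort.GC T H a b = G T H a b := rfl

theorem GT_eq (T H a : ℝ) : Pool.Agent.H24R3.GapsShort.GT T H a = GT T H a := rfl

/-- On the Riemann hypothesis: lower bounds for the proportion of the normalised gaps in windows,
in every short interval. -/
theorem result (RH : RiemannHypothesis) :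
    (∀ h a b ε : ℝ, 0 < h → h ≤ 1 → 0 ≤ a → h * a ≤ 1 / 3 → 0 < b → 0 < ε →
      ∃ T₀ : ℝ, ∀ T : ℝ, T₀ ≤ T → ∀ H : ℝ, T ^ h ≤ H → H ≤ T →
        (p h a - 1 / b - ε) * (Z T H : ℝ) ≤ (G T H a b : ℝ) ∧
        (p h a - ε) * (Z T H : ℝ) ≤ (GT T H a : ℝ)) ∧
    (∀ h b : ℝ, 0 < h → h ≤ 1 → c h < 2 → 1 / (2 - c h) < b →
      ∃ a : ℝ, 0 < a ∧ ∃ κ : ℝ, 0 < κ ∧ ∃ T₀ : ℝ, ∀ T : ℝ, T₀ ≤ T → ∀ H : ℝ, T ^ h ≤ H →
        H ≤ T → κ * (Z T H : ℝ) ≤ (G T H a b : ℝ)) ∧
    (∃ η κ : ℝ, 0 < η ∧ η < 1 ∧ 0 < κ ∧ ∃ T₀ : ℝ, ∀ T : ℝ, T₀ ≤ T → ∀ H : ℝ,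
      T ^ (1 - η) ≤ H → H ≤ T →
        1 / 2 * (Z T H : ℝ) ≤ (GT T H (1 / 3) : ℝ) ∧
        κ * (Z T H : ℝ) ≤ (G T H (1 / 3) 2 : ℝ) ∧
        1 / 100 * (Z T H : ℝ) ≤ (G T H (1 / 6) (8 / 5) : ℝ)) := by
  have hRH : ∀ s : ℂ, riemannZeta s = 0 → 0 < s.re → s.re < 1 → s.re = 1 / 2 := by
    intro s h0 h1 h2
    apply RH s h0
    · rintro ⟨k, hk⟩
      have := congrArg Complex.re hk
      simp at this
      have hk0 : (0 : ℝ) ≤ k := Nat.cast_nonneg k
      linarith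
    · intro h; rw [h] at h2; simp at h2
  refine ⟨?_, ?_, ?_⟩
  · intro h a b ε hh hh1 ha0 ha hb hε
    obtain ⟨T1, -, h1⟩ := Pool.Agent.H24R3.GapsShort.windows hRH (c' := p h a - 1 / b - ε)
      hh hh1 ha0 ha hb (by rw [← p_eq hh]; linarith)
    obtain ⟨T2, -, h2⟩ := Pool.Agent.H24R3.GapsShort.tails hRH (c' := p h a - ε)
      hh hh1 ha0 ha (by rw [← p_eq hh]; linarith)
    refine ⟨max T1 T2, fun T hT H hH hHT => ⟨?_, ?_⟩⟩
    · exact h1 T ((le_max_left _ _).trans hT) H hH hHT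
    · exact h2 T ((le_max_right _ _).trans hT) H hH hHT
  · intro h b hh hh1 hc hb
    rw [c_eq hh] at hc hb
    exact Pool.Agent.H24R3.GapsShort.near_zero hRH hh hh1 hc hb
  · exact Pool.Agent.H24R3.GapsShort.explicit hRH

end Pool.Agent.Results.MP_21f43f_nt.GapWindows
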