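import Pool.Agent.H177R3.LatE

/-!
Assume the Riemann hypothesis.  The normalised gaps of the zeta zeros do not concentrate on a
lattice of mesh larger than one half: for every `c > 1/2` a positive proportion of them stays away
from all the multiples of `c`.

Idea of the proof.  If almost all the gaps were close to multiples of `c = 1/θ`, then so would be
almost all the differences of nearby zeros (`|sin|` is subadditive), hence Montgomery's form factor
would be periodic with period `θ < 2`, which contradicts its value `|α|` on `(-1, 1)` near the two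
frequencies `θ/2 + τ` and `θ/2 - τ`.  The passage from pairs to consecutive zeros uses bounds for
the moments of the number of zeros in windows of bounded length at the scale of the mean spacing.
-/

open Filter MeasureTheory

namespace Pool.Agent.Results.MP_21f43f_nt.LatticeExclusion

/-- multiplicity of `s` as a zero of the Riemann zeta function (order of vanishing at `s`) -/
noncomputable def zmult (s : ℂ) : ℕ := analyticOrderNatAt riemannZeta s

/-- the number of nontrivial zeros of `ζ` with ordinate in `(0, t]`, with multiplicity -/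
noncomputable def NZ (t : ℝ) : ℕ :=
  ∑ᶠ s ∈ {s : ℂ | riemannZeta s = 0 ∧ 0 < s.re ∧ s.re < 1 ∧ 0 < s.im ∧ s.im ≤ t}, zmult s

/-- for `n ≥ 1`: the `n`-th positive ordinate `γ n` of a nontrivial zero of `ζ`, the ordinates being
listed in nondecreasing order and repeated according to multiplicity -/
noncomputable def γ (n : ℕ) : ℝ := sInf {t : ℝ | n ≤ NZ t}

/-- the normalised gaps `δ_n = (γ_{n+1} log γ_{n+1} - γ_n log γ_n) / 2π` -/
noncomputable def δ (n : ℕ) : ℝ :=
  (γ (n + 1) * Real.log (γ (n + 1)) - γ n * Real.log (γ n)) / (2 * Real.pi)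

/-- On the Riemann hypothesis: for every `c > 1/2` there is `ε > 0` such that for all large `N` at
least `ε N` of the normalised gaps `δ_1, …, δ_N` have distance at least `ε` from every integer
multiple of `c`. -/
theorem result (RH : RiemannHypothesis) (c : ℝ) (hc : 1 / 2 < c) :
    ∃ ε : ℝ, 0 < ε ∧ ∀ᶠ N : ℕ in atTop,
      ε * N ≤ ({n : ℕ | 1 ≤ n ∧ n ≤ N ∧ ∀ k : ℤ, ε ≤ |δ n - c * k|}.ncard : ℝ) := by
  have hdel : ∀ n, H177.Lat.del n = δ n := fun n => rfl
  have hc0 : 0 < c := by linarith
  obtain ⟨ε, hε, h⟩ := H177.Lat.lattice RH (1 / c) (by positivity) (by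
    rw [div_lt_iff₀ hc0]; linarith)
  refine ⟨ε, hε, ?_⟩
  filter_upwards [h] with N hN
  have e : ∀ (n : ℕ) (k : ℤ), H177.Lat.del n - k / (1 / c) = δ n - c * k := by
    intro n k
    rw [hdel, div_div_eq_mul_div, div_one, mul_comm (k : ℝ) c]
  simp only [e] at hN
  exact hN

end Pool.Agent.Results.MP_21f43f_nt.LatticeExclusion
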